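import Pool.Agent.T63.FF.Base
import Pool.Agent.N375.AV.D

/-!
# Frey's inequality for all parameters of height near values of additive functions, in every one-parameter family

Let `F = f_1 ∘ ⋯ ∘ f_k` be a composition of functions dominated by the largest prime factor (`PD`), for
example additive functions `f` with `f (q^j) ≤ C q^j` at the prime powers, with different values at
different large primes (the sum of the prime factors), the largest prime factor itself, and Kempner's
function. Let `G` have steps bounded below by a positive constant and growth at most `v ^ e`, for example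
`G v = v`. Let `J = A / D` be any rational function over `ℚ` of degree `N` with at least two poles on the
projective line, `ε > 0`, `θ ≥ 0` and `e ε + θ < 1`. For all `m ≤ M` but `K M exp (- b (log M)^(1 / (k + 1)))`,
for ALL rational numbers `t` of height `H(t)` with `|H(t) - G (F m)| ≤ F(m) ^ θ` Frey's inequality
`h_F(A) + c₀ g ≤ κ log N_A`, `κ = (16 (N + 1) / ε + 3) / 6`, holds for ALL number fields `K`, ALL extensions `L`
of `K`, of whatever degree `g`, and the Weil restrictions `A` to `K` of ALL elliptic curves over `L` with
invariant `J(t)`. The same is true for the integers `t` if only `D` is not constant. The values of `F` are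
taken with very large multiplicities and `F(m)` is in general much smaller than `m`; and so this does not
follow from the number of the exceptional `t`.

Proof: the starting library `N375/AV` (preimages of thin sets under functions dominated by the largest
prime factor) and the starting theorem `MP_6babc4_nt.EveryOneParameterFamily` (the number of the exceptional
`t`).
-/

set_option autoImplicit false

namespace Pool.Agent.Results.MP_6babc4_nt.AdditiveValues

open Polynomial
open Pool.Agent.T63.FF
open Pool.Agent.Results.MP_6babc4_nt.EveryOneParameterFamily (IsFunction poleCount HoldsAt)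
open Pool.Agent.N733.TG (Expanding expanding_pow)
open Pool.Agent.N375.AV (PD comp good pd_additive pd_largest pd_kempner)

/-- **Frey's inequality near the values of compositions of additive functions.** For every rational
function `J = A / D` of degree `N` over `ℚ`, `ε > 0`, `c₀`, all compositions `F = comp fs` of functions
dominated by the largest prime factor, `G` with steps `≥ a > 0` and growth at most `v ^ e`, `θ ≥ 0` with
`e ε + θ < 1`: if `J` has at least two poles then for all `m ≤ M` but `K M exp (- b (log M)^(1 / (k + 1)))`, for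
ALL rational numbers `t` of height `H(t)` with `|H(t) - G (F m)| ≤ F(m) ^ θ`, `t` is not a pole and Frey's
inequality with the slope `(16 (N + 1) / ε + 3) / 6` and the constant `c₀` holds for all Weil restrictions
of all elliptic curves over all number fields with invariant `J(t)` (`HoldsAt`); if `D` is not constant
then the same is true for ALL integers `t` with `||t| - G (F m)| ≤ F(m) ^ θ`. The additive functions with
`f (q^j) ≤ C q^j` which are injective at the large primes, the largest prime factor and Kempner's function
are examples of such functions, and `α v ^ e` with `α > 0`, `e ≥ 1` is an example of `G`. -/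
theorem result :
    ∀ (N : ℕ) (A D : ℤ[X]), IsFunction N A D → ∀ ε c₀ : ℝ, 0 < ε →
      ∀ fs : List (ℕ → ℕ), (∀ f ∈ fs, PD f) →
      ∀ (G : ℕ → ℝ) (e : ℝ), Expanding G e → ∀ θ : ℝ, 0 ≤ θ → e * ε + θ < 1 →
      (2 ≤ poleCount N D → ∃ b K : ℝ, 0 < b ∧ ∀ M : ℕ, 1 ≤ M →
        ({m : ℕ | 1 ≤ m ∧ m ≤ M ∧ ¬ ∀ t : ℚ, |(ht t : ℝ) - G (comp fs m)| ≤ (comp fs m : ℝ) ^ θ →
            HoldsAt (slope N ε) c₀ A D t}.ncard : ℝ) ≤
          K * M * Real.exp (-(b * Real.log M ^ ((1 : ℝ) / (fs.length + 1))))) ∧
      (1 ≤ D.natDegree → ∃ b K : ℝ, 0 < b ∧ ∀ M : ℕ, 1 ≤ M →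
        ({m : ℕ | 1 ≤ m ∧ m ≤ M ∧ ¬ ∀ t : ℤ, |(t.natAbs : ℝ) - G (comp fs m)| ≤
            (comp fs m : ℝ) ^ θ → HoldsAt (slope N ε) c₀ A D t}.ncard : ℝ) ≤
          K * M * Real.exp (-(b * Real.log M ^ ((1 : ℝ) / (fs.length + 1))))) := by
  intro N A D hJ ε c₀ hε fs hfs G e hG θ hθ h1
  refine ⟨fun h2 => ?_, fun h2 => ?_⟩
  · obtain ⟨b, K, hb, hbK⟩ := good (fun _ : ℚ => True) (fun t : ℚ => HoldsAt (slope N ε) c₀ A D t)
      (fun t : ℚ => (ht t : ℝ)) fs hfs hG (s := ε) (κ := θ) hε.le hθ h1
      (epsRat (N := N) (count_rat N A D hJ ε c₀ hε h2))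
    refine ⟨b, K, hb, fun M hM => le_trans (le_of_eq ?_) (hbK M hM)⟩
    congr 2
    ext m
    simp
  · obtain ⟨b, K, hb, hbK⟩ := good (fun _ : ℤ => True) (fun t : ℤ => HoldsAt (slope N ε) c₀ A D t)
      (fun t : ℤ => (t.natAbs : ℝ)) fs hfs hG (s := ε) (κ := θ) hε.le hθ h1
      (epsInt (N := N) (count_int N A D hJ ε c₀ hε h2))
    refine ⟨b, K, hb, fun M hM => le_trans (le_of_eq ?_) (hbK M hM)⟩
    congr 2
    ext m
    simp

end Pool.Agent.Results.MP_6babc4_nt.AdditiveValues
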