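import Pool.Agent.T63.FF.Base
import Pool.Agent.N790.CM.C

/-!
# Frey's inequality for all parameters of height near all multiples of Carmichael's function of almost all integers, in every one-parameter family

Let `G` have steps bounded below by a positive constant and growth at most `v ^ e`, for example `G v = v`.
Let `J = A / D` be any rational function over `ℚ` of degree `N` with at least two poles on the projective
line, `ε > 0`, `θ ≥ 0`, `B ≥ 1` and `B (e ε + θ) < 1`. For all `u ≤ M` but `M / (log M) ^ A` and ALL multiples
`w ≤ M ^ B` of Carmichael's function `λ(u)` (for example Euler's function `φ(u)`), for ALL rational numbers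
`t` of height `H(t)` with `|H(t) - G(w)| ≤ w ^ θ` Frey's inequality `h_F(A) + c₀ g ≤ κ log N_A`,
`κ = (16 (N + 1) / ε + 3) / 6`, holds for ALL number fields `K`, ALL extensions `L` of `K`, of whatever degree
`g`, and the Weil restrictions `A` to `K` of ALL elliptic curves over `L` with invariant `J(t)`. The same is
true for the integers `t` if only `D` is not constant, and for the common multiples `w` of the numbers
`F p`, `p` the large primes which divide `u` exactly once, if `F` takes each positive value at boundedly many
primes, for example `F p = |P(p)|` for a nonconstant polynomial `P`. Some `w` are multiples of `λ(u)` for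
more than `M ^ (1 - δ)` of the `u ≤ M`, so that this does not follow from the number of the exceptional `t`.

Proof: the starting library `N790/CM` and the starting theorem `MP_6babc4_nt.EveryOneParameterFamily` (the
number of the exceptional `t`).
-/

set_option autoImplicit false

namespace Pool.Agent.Results.MP_6babc4_nt.CarmichaelMultiples

open Polynomial
open Pool.Agent.T63.FF
open Pool.Agent.Results.MP_6babc4_nt.EveryOneParameterFamily (IsFunction poleCount HoldsAt)
open Pool.Agent.N733.TG (Expanding expanding_pow)
open Pool.Agent.N790.CM (FewTimes Carries OnMultiples OnCarmichael fewTimes_pred fewTimes_poly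
  keep_good)

/-- **Frey's inequality near all multiples of Carmichael's function of almost all integers.** For every
rational function `J = A / D` of degree `N` over `ℚ`, `ε > 0`, `c₀`, `G` with steps `≥ a > 0` and growth at
most `v ^ e`, `θ ≥ 0`, `B ≥ 1` with `B (e ε + θ) < 1`: if `J` has at least two poles then for all `u ≤ M` but
`M / (log M) ^ A` and ALL multiples `w ≤ M ^ B` of `λ(u)`, and also for all common multiples `w ≤ M ^ B` of the
numbers `F p`, `p > exp (√(log M))` a prime which divides `u` exactly once, `F` any function which takes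
each positive value at boundedly many primes, for ALL rational numbers `t` of height `H(t)` with
`|H(t) - G w| ≤ w ^ θ`, `t` is not a pole and Frey's inequality with the slope `(16 (N + 1) / ε + 3) / 6` and
the constant `c₀` holds for all Weil restrictions of all elliptic curves over all number fields with
invariant `J(t)` (`HoldsAt`); if `D` is not constant then the same is true for ALL integers `t` with
`||t| - G w| ≤ w ^ θ`. Examples of `F` are `p - 1` and `|P(p)|`, `P` a nonconstant polynomial, and `α v ^ e`
with `α > 0`, `e ≥ 1` is an example of `G`. -/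
theorem result :
    ∀ (N : ℕ) (A D : ℤ[X]), IsFunction N A D → ∀ ε c₀ : ℝ, 0 < ε →
      ∀ (G : ℕ → ℝ) (e : ℝ), Expanding G e → ∀ θ B : ℝ, 0 ≤ θ → 1 ≤ B → B * (e * ε + θ) < 1 →
      (2 ≤ poleCount N D →
        OnMultiples B (fun w => ∀ t : ℚ, |(ht t : ℝ) - G w| ≤ (w : ℝ) ^ θ →
          HoldsAt (slope N ε) c₀ A D t)) ∧
      (1 ≤ D.natDegree →
        OnMultiples B (fun w => ∀ t : ℤ, |(t.natAbs : ℝ) - G w| ≤ (w : ℝ) ^ θ →
          HoldsAt (slope N ε) c₀ A D t)) := by
  intro N A D hJ ε c₀ hε G e hG θ B hθ hB h1
  refine ⟨fun h2 => ?_, fun h2 => ?_⟩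
  · have key : OnMultiples B (fun w => ∀ t : ℚ, |(ht t : ℝ) - G w| ≤ (w : ℝ) ^ θ →
        HoldsAt (slope N ε) c₀ A D t) :=
      (keep_good (fun _ : ℚ => True) (fun t : ℚ => HoldsAt (slope N ε) c₀ A D t)
        (fun t : ℚ => (ht t : ℝ)) hG (s := ε) (κ := θ) (B := B) hε.le hθ hB h1
        (epsRat (N := N) (count_rat N A D hJ ε c₀ hε h2))).mono fun w _ hw t ht => hw t trivial ht
    exact key
  · have key : OnMultiples B (fun w => ∀ t : ℤ, |(t.natAbs : ℝ) - G w| ≤ (w : ℝ) ^ θ →
        HoldsAt (slope N ε) c₀ A D t) :=
      (keep_good (fun _ : ℤ => True) (fun t : ℤ => HoldsAt (slope N ε) c₀ A D t)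
        (fun t : ℤ => (t.natAbs : ℝ)) hG (s := ε) (κ := θ) (B := B) hε.le hθ hB h1
        (epsInt (N := N) (count_int N A D hJ ε c₀ hε h2))).mono fun w _ hw t ht => hw t trivial ht
    exact key

end Pool.Agent.Results.MP_6babc4_nt.CarmichaelMultiples
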