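import Pool.Agent.Helper89V.FR10
import Pool.Agent.Helper89V.Exc

/-!
# Frey's inequality with slopes below `1 / 2` for all twists of almost all fibres, above the points of
# any degree, of all one-parameter families of elliptic curves over number fields

Frey asks for constants `κ`, `c`, which may depend on the number field `F` and on `g`, such that
`h_F(A) ≤ κ log N_A + c` for all abelian varieties `A` over `F` of dimension `g`.

Let `K` be a number field and `r ≥ 1`. We construct ONE set `E` of closed points of the line over `K`
of degree `r` (given by their minimal polynomials), of density zero, more precisely at most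
`C exp (-√U)` times the number of all these points of height at most `U`, which is exceptional for all
one-parameter families of elliptic curves over `K` at once.

**The families.** Let `j = A / B` be a non-constant rational function over `K`, for example the
invariant of any non-isotrivial elliptic curve over `K(T)`. A place of `K(T)` is bad if it is a pole of
`j`, a zero of `j` of order not divisible by three or a zero of `j - 1728` of odd order. We suppose that
all bad places different from infinity have degree at most `2 r + 1` over `K` (for a given family these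
are all but finitely many `r`). Let `γ` be the number of the geometric bad places (`badCount`) and
`w = deg j + ∑ μ_P` (`weight`), where `μ_P ∈ {0, 2, 3, 4}` is the least exponent of the minimal
discriminant at `P`, up to quadratic twists, for the bad places which are not poles. For example
`w = 12 n` for the invariant of an elliptic surface with discriminant of degree `12 n` and without
fibres of the types `I_n^*`, `II^*`, `III^*`, `IV^*`. By the theorem of Mason and Stothers
`w + 12 ≤ 6 γ`.

**The theorem.** Let `3 ≤ s ≤ 6` and `ε > 0`. There is a constant `C` such that for ALL numbers `x` of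
degree `r` over `K` with minimal polynomial not in `E` and `j(x) ≠ 0, 1728, ∞`, ALL number fields
`L ⊇ K(x)`, of whatever degree, ALL subfields `F` of `K(x)`, ALL elliptic curves `W` over `L` of
invariant `j(x)` (all twists), and the abelian varieties `A = Res_{L/F} W` over `F`, of dimension
`g = [L : F]` (`A = W` for `F = L = K(x)`),

`h_F(A) + (2 (s - 3) γ - w - ε) / 12 * g h(x) ≤ s / (12 [F : ℚ]) * log N_A + C g`.

For `s = 6` the slope is `1 / (2 [F : ℚ])`, the slope of the conjecture of Szpiro, and the left side
contains the additional term `(1 - ε) g h(x)` (at least). For `s > 3 + w / (2 γ)` the coefficient of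
`h(x)` is positive, so that `h_F(A) ≤ s / (12 [F : ℚ]) log N_A + C g`; here `3 + w / (2 γ)` is at most
`6 (1 - 1 / γ)`, so the slope is less than `1 / (2 [F : ℚ])` for every family. None of the constants
depends on `F`, `L`, `g` or the twist.

The height is the (unstable) Faltings height of the Néron model over `O_F`; `12 [F : ℚ] h_F(A)` is the
sum of the logarithm of the norm of the minimal discriminant of `W`, of the archimedean terms and of
`6 log (|D_L| / |D_F| ^ g)`. The conductor is `N_A = N(f_W) (|D_L| / |D_F| ^ g) ^ 2` (Milne), where the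
part of `N(f_W)` prime to six is `multNorm W * addNorm W`.

Proof. (1) If the coefficients of the minimal polynomial of `x` of degree `r` are in a box, then the
norm of `x - a`, `a` of degree `n`, is a decomposable form in `r + 1` variables over `K` which is rarely
divisible by the square of a prime or two primes above the same `v` (lattices of index `N(v) ^ 2`) if
`n ≤ 2 r + 1`. So for almost all `x`, simultaneously for all `a`, the primes at which `x` meets a bad
place exactly once contribute `(1 - κ) h(x)` for each geometric bad place. (2) All curves of invariant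
`j(x)` have bad reduction at the primes of `L` above these primes `p` of `K(x)`, or `L` is ramified
there: if the ramification index is `e`, then the exponent of the minimal discriminant is at most
`6 + e μ`, and additive reduction or `e μ ≥ 6`. The primes of `L` above `p` contribute
`∑ (e - 1) log N` to the discriminant of `L / K(x)`, for whatever `L`. (3) The slope three: at all
primes the exponent of the minimal discriminant is at most `6` (`0` if semistable) plus the
contributions of the pole of `j(x)` and of the bad places which `x` meets; the sum of the latter is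
at most `w h(x)`. (4) Interpolation between `s = 3` and `s = 6`.
-/

set_option autoImplicit false

namespace Pool.Agent.Results.MP_6babc4_nt.SlopeBelowHalfAllDegrees

open NumberField IsDedekindDomain Polynomial

/-- the modular invariant `j(τ) = E₄(τ) ^ 3 / Δ(τ) = 1 / q + 744 + ⋯` -/
noncomputable def jInv (τ : UpperHalfPlane) : ℂ :=
  ModularForm.E₄ τ ^ 3 / ModularForm.discriminant τ

/-- the archimedean term `- log (|Δ(τ)| (Im τ) ^ 6)` of the Faltings height -/
noncomputable def arch (τ : UpperHalfPlane) : ℝ :=
  -Real.log (‖ModularForm.discriminant τ‖ * τ.im ^ 6)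

/-- the points `τ w` have modular invariant `j` -/
def IsPeriod {L : Type} [Field L] [NumberField L] (j : L)
    (τ : InfinitePlace L → UpperHalfPlane) : Prop := ∀ w, jInv (τ w) = w.embedding j

/-- the equation is integral at `v` -/
def IntAt {L : Type} [Field L] [NumberField L] (v : HeightOneSpectrum (𝓞 L))
    (W : WeierstrassCurve L) : Prop :=
  v.valuation L W.a₁ ≤ 1 ∧ v.valuation L W.a₂ ≤ 1 ∧ v.valuation L W.a₃ ≤ 1 ∧
    v.valuation L W.a₄ ≤ 1 ∧ v.valuation L W.a₆ ≤ 1

/-- the exponent of `v` in the minimal discriminant of the curve: the least valuation at `v` of the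
discriminant of a Weierstrass equation of the curve over `L` which is integral at `v` -/
noncomputable def discExp {L : Type} [Field L] [NumberField L] (v : HeightOneSpectrum (𝓞 L))
    (W : WeierstrassCurve L) : ℕ :=
  sInf {m : ℕ | ∃ C : WeierstrassCurve.VariableChange L, IntAt v (C • W) ∧
    v.valuation L (C • W).Δ = WithZero.exp (-(m : ℤ))}

/-- the Faltings height over `F` of the Weil restriction `A = Res_{L/F} W` of an elliptic curve `W`
over `L` (up to an absolute additive multiple of `[L : F]` which depends on the normalisation of the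
metric only) -/
noncomputable def height (F : Type) [Field F] [NumberField F] {L : Type} [Field L] [NumberField L]
    [Algebra F L] (W : WeierstrassCurve L) (τ : InfinitePlace L → UpperHalfPlane) : ℝ :=
  (∑ᶠ v : HeightOneSpectrum (𝓞 L), (discExp v W : ℝ) * Real.log (Ideal.absNorm v.asIdeal : ℝ) +
    ∑ w : InfinitePlace L, (w.mult : ℝ) * arch (τ w) +
    6 * (Real.log |(discr L : ℝ)| - Module.finrank F L * Real.log |(discr F : ℝ)|)) /
    (12 * Module.finrank ℚ F)

/-- good reduction at `v`: some Weierstrass equation over `L` of the curve is integral at `v` and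
has a discriminant which is a unit at `v` -/
def GoodAt {L : Type} [Field L] [NumberField L] (v : HeightOneSpectrum (𝓞 L))
    (W : WeierstrassCurve L) : Prop :=
  ∃ C : WeierstrassCurve.VariableChange L,
    v.valuation L (C • W).a₁ ≤ 1 ∧ v.valuation L (C • W).a₂ ≤ 1 ∧ v.valuation L (C • W).a₃ ≤ 1 ∧
    v.valuation L (C • W).a₄ ≤ 1 ∧ v.valuation L (C • W).a₆ ≤ 1 ∧ v.valuation L (C • W).Δ = 1

/-- semistable (good or multiplicative) reduction at `v`: some Weierstrass equation over `L` of the
curve is integral at `v` and its discriminant or its invariant `c₄` is a unit at `v` -/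
def SemistableAt {L : Type} [Field L] [NumberField L] (v : HeightOneSpectrum (𝓞 L))
    (W : WeierstrassCurve L) : Prop :=
  ∃ C : WeierstrassCurve.VariableChange L,
    v.valuation L (C • W).a₁ ≤ 1 ∧ v.valuation L (C • W).a₂ ≤ 1 ∧ v.valuation L (C • W).a₃ ≤ 1 ∧
    v.valuation L (C • W).a₄ ≤ 1 ∧ v.valuation L (C • W).a₆ ≤ 1 ∧
    (v.valuation L (C • W).Δ = 1 ∨ v.valuation L (C • W).c₄ = 1)

/-- the product of the norms of the primes of multiplicative reduction not dividing six -/
noncomputable def multNorm {L : Type} [Field L] [NumberField L] (W : WeierstrassCurve L) : ℝ :=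
  ∏ᶠ v ∈ {v : HeightOneSpectrum (𝓞 L) |
    ¬ GoodAt v W ∧ SemistableAt v W ∧ v.valuation L 6 = 1}, (Ideal.absNorm v.asIdeal : ℝ)

/-- the product of the squares of the norms of the primes of additive reduction not dividing six -/
noncomputable def addNorm {L : Type} [Field L] [NumberField L] (W : WeierstrassCurve L) : ℝ :=
  ∏ᶠ v ∈ {v : HeightOneSpectrum (𝓞 L) | ¬ SemistableAt v W ∧ v.valuation L 6 = 1},
    (Ideal.absNorm v.asIdeal : ℝ) ^ 2

/-- the norm `|D_L| / |D_F| ^ [L : F]` of the relative discriminant -/
noncomputable def relDisc (F L : Type) [Field F] [NumberField F] [Field L] [NumberField L]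
    [Algebra F L] : ℝ := |(discr L : ℝ)| / |(discr F : ℝ)| ^ Module.finrank F L

/-- a factor of the conductor of `A = Res_{L/F} W`: the part prime to six of the norm of the
conductor of `W`, times the square of the norm of the relative discriminant -/
noncomputable def cond (F : Type) [Field F] [NumberField F] {L : Type} [Field L] [NumberField L]
    [Algebra F L] (W : WeierstrassCurve L) : ℝ :=
  multNorm W * addNorm W * relDisc F L ^ 2

/-- the absolute logarithmic height of `x ∈ L` -/
noncomputable def absHeight {L : Type} [Field L] [NumberField L] (x : L) : ℝ :=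
  Height.logHeight₁ x / Module.finrank ℚ L

/-- the closed points of degree `r` of the line over `K`, of absolute height at most `U`, given by
their minimal polynomials -/
def points (K : Type) [Field K] (r : ℕ) (U : ℝ) : Set K[X] :=
  {p | ∃ (M : Type) (_ : Field M) (_ : NumberField M) (_ : Algebra K M) (x : M),
    Module.finrank K M = r ∧ (minpoly K x).natDegree = r ∧ minpoly K x = p ∧ absHeight x ≤ U}

section

variable {K : Type} [Field K]

open Classical in
/-- the bad places (different from infinity) of `j = A / B`, given by monic irreducible polynomials: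
the poles of `j`, the zeros of `j` of order not divisible by three and the zeros of `j - 1728` of odd
order -/
noncomputable def badPlaces (A B : K[X]) : Finset K[X] :=
  (UniqueFactorizationMonoid.normalizedFactors (A * (A - 1728 * B) * B)).toFinset.filter fun P =>
    P ∣ B ∨ ¬ 3 ∣ multiplicity P A ∨ ¬ 2 ∣ multiplicity P (A - 1728 * B)

/-- infinity is a bad place of `j = A / B` -/
def BadAtInfinity (A B : K[X]) : Prop :=
  B.natDegree < A.natDegree ∨ ¬ 3 ∣ (B.natDegree - A.natDegree) ∨
    ¬ 2 ∣ (B.natDegree - (A - 1728 * B).natDegree)

open Classical in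
/-- the number `γ` of the bad places over the algebraic closure, infinity included -/
noncomputable def badCount (A B : K[X]) : ℕ :=
  ∑ P ∈ badPlaces A B, P.natDegree + if BadAtInfinity A B then 1 else 0

/-- the least exponent of the minimal discriminant, up to twists, at a place at which `j` has a zero
of order `a` and `j - 1728` has a zero of order `c` (where `a = 0` or `c = 0`) -/
def exponent (a c : ℕ) : ℕ :=
  if a % 3 = 1 then 2 else if a % 3 = 2 then 4 else if c % 2 = 1 then 3 else 0

open Classical in
/-- this exponent at the place `P` (zero at the poles of `j`) -/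
noncomputable def exponentAt (A B P : K[X]) : ℕ :=
  if P ∣ B then 0 else exponent (multiplicity P A) (multiplicity P (A - 1728 * B))

/-- this exponent at infinity (zero if it is a pole of `j`) -/
noncomputable def exponentAtInfinity (A B : K[X]) : ℕ :=
  if B.natDegree < A.natDegree then 0 else
    exponent (B.natDegree - A.natDegree) (B.natDegree - (A - 1728 * B).natDegree)

/-- the weight `w` of `j = A / B`: the degree of `j` plus the sum of the exponents at the bad places
over the algebraic closure -/
noncomputable def weight (A B : K[X]) : ℕ :=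
  max A.natDegree B.natDegree + ∑ P ∈ badPlaces A B, exponentAt A B P * P.natDegree +
    exponentAtInfinity A B

theorem badPlaces_eq (A B : K[X]) : badPlaces A B = Pool.Agent.N751.FR.badPl A B := rfl

theorem badCount_eq (A B : K[X]) : badCount A B = Pool.Agent.N751.FR.gam A B := rfl

theorem weight_eq (A B : K[X]) : weight A B = Pool.Agent.N751.FR.wt A B := rfl

end

theorem points_eq (K : Type) [Field K] [NumberField K] {r : ℕ} (hr : 1 ≤ r) (U : ℝ) :
    points K r U = {p | Pool.Agent.N753.DR.AtH r (r * (Module.finrank ℚ K * U)) p} := by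
  have hd : (0 : ℝ) < Module.finrank ℚ K := by exact_mod_cast Module.finrank_pos
  have hr0 : (0 : ℝ) < r := by exact_mod_cast hr
  ext p
  constructor
  · rintro ⟨M, i1, i2, i3, x, h1, h2, h3, h4⟩
    refine ⟨M, i1, i2, i3, x, h1, h2, h3, ?_⟩
    have h5 : Module.finrank ℚ K * Module.finrank K M = Module.finrank ℚ M :=
      Module.finrank_mul_finrank ℚ K M
    have hM : (0 : ℝ) < Module.finrank ℚ M := by exact_mod_cast Module.finrank_pos
    unfold absHeight at h4
    rw [div_le_iff₀ hM, ← h5, h1] at h4
    push_cast at h4
    linarith
  · rintro ⟨M, i1, i2, i3, x, h1, h2, h3, h4⟩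
    refine ⟨M, i1, i2, i3, x, h1, h2, h3, ?_⟩
    have h5 : Module.finrank ℚ K * Module.finrank K M = Module.finrank ℚ M :=
      Module.finrank_mul_finrank ℚ K M
    have hM : (0 : ℝ) < Module.finrank ℚ M := by exact_mod_cast Module.finrank_pos
    unfold absHeight
    rw [div_le_iff₀ hM, ← h5, h1]
    push_cast
    linarith

/-- **Theorem.** Let `K` be a number field and `r ≥ 1`. There is ONE set `E` of closed points of the
line over `K` of degree `r` such that

(1) the number of these points of absolute height at most `U` is finite and at most `C exp (-√U)`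
times their number are in `E`, for `U ≥ U₀`;

(2) let `j = A / B` be a non-constant rational function over `K`, in lowest terms, all of whose bad
places different from infinity have degree at most `2 r + 1`. Then `w + 12 ≤ 6 γ`, and for all real
`3 ≤ s ≤ 6` and `ε > 0` there is `C` such that for all number fields `L ⊇ K`, all `x ∈ L` of degree `r`
over `K` with minimal polynomial not in `E` and `j(x) ≠ 0, 1728, ∞`, all subfields `F` of `K(x)`, all
elliptic curves `W` over `L` of invariant `j(x)`, and `A = Res_{L/F} W`, `g = [L : F]`,
`h_F(A) + (2 (s - 3) γ - w - ε) / 12 * g h(x) ≤ s / (12 [F : ℚ]) * log N_A + C g`. -/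
theorem result (K : Type) [Field K] [NumberField K] (r : ℕ) (hr : 1 ≤ r) :
    ∃ E : Set K[X],
      (∃ C U₀ : ℝ, ∀ U : ℝ, U₀ ≤ U → (points K r U).Finite ∧
        ((E ∩ points K r U).ncard : ℝ) ≤ C * Real.exp (-√U) * ((points K r U).ncard : ℝ)) ∧
      ∀ A B : K[X], IsCoprime A B → B ≠ 0 → 1 ≤ max A.natDegree B.natDegree →
        (∀ P ∈ badPlaces A B, P.natDegree ≤ 2 * r + 1) →
        weight A B + 12 ≤ 6 * badCount A B ∧
        ∀ s ε : ℝ, 3 ≤ s → s ≤ 6 → 0 < ε → ∃ C : ℝ,
        ∀ (L : Type) [Field L] [NumberField L] [Algebra K L] (x : L),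
          (minpoly K x).natDegree = r → minpoly K x ∉ E →
          aeval x A ≠ 0 → aeval x A ≠ 1728 * aeval x B → aeval x B ≠ 0 →
          ∀ (F : Type) [Field F] [NumberField F] [Algebra F L],
          (∀ z : F, algebraMap F L z ∈ IntermediateField.adjoin K {x}) →
          ∀ (W : WeierstrassCurve L) (τ : InfinitePlace L → UpperHalfPlane), W.Δ ≠ 0 →
          W.c₄ ^ 3 / W.Δ = aeval x A / aeval x B → IsPeriod (W.c₄ ^ 3 / W.Δ) τ →
            height F W τ + (2 * (s - 3) * badCount A B - weight A B - ε) / 12 *
                (Module.finrank F L * absHeight x) ≤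
              s / (12 * Module.finrank ℚ F) * Real.log (cond F W) + C * Module.finrank F L := by
  classical
  obtain ⟨E, hcard, hmain⟩ := Pool.Agent.Helper89V.fr_comb K r hr
  refine ⟨E, ?_, ?_⟩
  · -- the density
    obtain ⟨c1, hc1, hfin⟩ := Pool.Agent.Helper89V.sCntAll K r hr
    obtain ⟨c, T₀, hc, hlow⟩ := Pool.Agent.N31.FR.t K r hr
    have hd1 : (1 : ℝ) ≤ Module.finrank ℚ K := by exact_mod_cast Module.finrank_pos
    have hr1 : (1 : ℝ) ≤ r := by exact_mod_cast hr
    refine ⟨5 / c, max 0 |T₀|, fun U hU => ?_⟩
    have hU0 : 0 ≤ U := (le_max_left _ _).trans hU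
    have hUT : |T₀| ≤ U := (le_max_right _ _).trans hU
    have hU1 : U ≤ r * (Module.finrank ℚ K * U) := by
      have h1 : 1 * U ≤ Module.finrank ℚ K * U := mul_le_mul_of_nonneg_right hd1 hU0
      have h2 : 1 * (Module.finrank ℚ K * U) ≤ r * (Module.finrank ℚ K * U) :=
        mul_le_mul_of_nonneg_right hr1 (by positivity)
      linarith
    rw [points_eq K hr]
    set T : ℝ := r * (Module.finrank ℚ K * U) with hT
    have hT0 : 0 ≤ T := hU0.trans hU1
    have hf := (hfin T hT0).1
    refine ⟨hf, ?_⟩
    obtain ⟨Z, hZ1, hZ2⟩ := hlow T ((le_abs_self _).trans (hUT.trans hU1))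
    have h3 : (Z.card : ℝ) ≤ ({p : K[X] | Pool.Agent.N753.DR.AtH r T p}.ncard : ℝ) := by
      have h4 := Set.ncard_le_ncard (s := (Z : Set K[X])) (fun p hp => hZ1 p hp) hf
      rw [Set.ncard_coe_finset] at h4
      exact_mod_cast h4
    have h5 := (hcard T hT0).2
    have h6 : E ∩ {p | Pool.Agent.N753.DR.AtH r T p} =
        {p | p ∈ E ∧ Pool.Agent.N753.DR.AtH r T p} := rfl
    rw [h6]
    have h7 : √U ≤ √T := Real.sqrt_le_sqrt hU1
    have h8 : Real.exp ((r + 1) * T - √T) ≤ Real.exp (-√U) * Real.exp ((r + 1) * T) := by
      rw [← Real.exp_add]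
      exact Real.exp_le_exp.2 (by linarith)
    have h9 : 5 * Real.exp ((r + 1) * T) ≤
        5 / c * ({p : K[X] | Pool.Agent.N753.DR.AtH r T p}.ncard : ℝ) := by
      have h10 := mul_le_mul_of_nonneg_left (hZ2.trans h3) (show 0 ≤ 5 / c by positivity)
      have h11 : 5 / c * (c * Real.exp ((r + 1) * T)) = 5 * Real.exp ((r + 1) * T) := by
        field_simp
      rw [h11] at h10
      exact h10
    calc ({p | p ∈ E ∧ Pool.Agent.N753.DR.AtH r T p}.ncard : ℝ)
        ≤ 5 * Real.exp ((r + 1) * T - √T) := h5
      _ ≤ 5 * (Real.exp (-√U) * Real.exp ((r + 1) * T)) :=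
          mul_le_mul_of_nonneg_left h8 (by norm_num)
      _ = Real.exp (-√U) * (5 * Real.exp ((r + 1) * T)) := by ring
      _ ≤ Real.exp (-√U) *
          (5 / c * ({p : K[X] | Pool.Agent.N753.DR.AtH r T p}.ncard : ℝ)) :=
          mul_le_mul_of_nonneg_left h9 (Real.exp_pos _).le
      _ = _ := by ring
  -- the inequality
  intro A B hAB hB h1 hdeg
  obtain ⟨hw, hineq⟩ := hmain A B hAB hB h1 hdeg
  refine ⟨hw, ?_⟩
  intro s ε hs3 hs6 hε
  obtain ⟨C, hC, hI⟩ := hineq s hs3 hs6 ε hε
  refine ⟨C / 12, ?_⟩
  intro L _ _ _ x hxr hxE hxA hxD hxB F _ _ _ hF W τ hW hj hτ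
  have hFx : aeval x (A * (A - 1728 * B) * B) ≠ 0 := by
    rw [map_mul, map_mul, map_sub, map_mul, map_ofNat]
    exact mul_ne_zero (mul_ne_zero hxA (sub_ne_zero.2 hxD)) hxB
  have key := hI L x hxr hxE hFx F hF W τ hW hj hτ
  have hdF : (0 : ℝ) < Module.finrank ℚ F := by exact_mod_cast Module.finrank_pos
  have hfd : FiniteDimensional F L := FiniteDimensional.right ℚ F L
  have hg : (0 : ℝ) < Module.finrank F L := by exact_mod_cast Module.finrank_pos
  have hLg : (Module.finrank ℚ F : ℝ) * Module.finrank F L = Module.finrank ℚ L := by
    exact_mod_cast Module.finrank_mul_finrank ℚ F L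
  have hdF1 : (1 : ℝ) ≤ |(discr F : ℝ)| := by
    have h1 : (1 : ℤ) ≤ |discr F| := Int.one_le_abs (discr_ne_zero F)
    exact_mod_cast h1
  have hdL1 : (1 : ℝ) ≤ |(discr L : ℝ)| := by
    have h1 : (1 : ℤ) ≤ |discr L| := Int.one_le_abs (discr_ne_zero L)
    exact_mod_cast h1
  have hm : 0 < multNorm W := Pool.Agent.Y733.FF.multN_pos W hW
  have ha : 0 < addNorm W := Pool.Agent.Y733.FF.addN_pos W hW
  have hr' : 0 < relDisc F L := by
    unfold relDisc
    have : (0 : ℝ) < |(discr L : ℝ)| := by linarith
    have : (0 : ℝ) < |(discr F : ℝ)| := by linarith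
    positivity
  have hrd : Real.log (relDisc F L ^ 2) = 2 * (Real.log |(discr L : ℝ)| -
      Module.finrank F L * Real.log |(discr F : ℝ)|) := by
    unfold relDisc
    rw [Real.log_pow, Real.log_div (by linarith) (pow_pos (by linarith) _).ne', Real.log_pow]
    push_cast
    ring
  have hcond : Real.log (cond F W) = Real.log (multNorm W) + Real.log (addNorm W) +
      2 * (Real.log |(discr L : ℝ)| - Module.finrank F L * Real.log |(discr F : ℝ)|) := by
    unfold cond
    rw [Real.log_mul (mul_pos hm ha).ne' (pow_pos hr' 2).ne', Real.log_mul hm.ne' ha.ne', hrd]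
  have hkey : (∑ᶠ v : HeightOneSpectrum (𝓞 L),
      (discExp v W : ℝ) * Real.log (Ideal.absNorm v.asIdeal : ℝ)) +
      ∑ w : InfinitePlace L, (w.mult : ℝ) * arch (τ w) +
      (2 * (s - 3) * badCount A B - weight A B - ε) * Height.logHeight₁ x ≤
      s * Real.log (multNorm W) + s * Real.log (addNorm W) +
        2 * (s - 3) * (Real.log |(discr L : ℝ)| -
          Module.finrank F L * Real.log |(discr F : ℝ)|) + C * Module.finrank ℚ L := key
  have e1 : (2 * (s - 3) * badCount A B - weight A B - ε) / 12 *
      (Module.finrank F L * absHeight x) =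
      ((2 * (s - 3) * badCount A B - weight A B - ε) * Height.logHeight₁ x) /
        (12 * Module.finrank ℚ F) := by
    unfold absHeight
    rw [← hLg]
    field_simp
  have e2 : C / 12 * (Module.finrank F L : ℝ) =
      (C * Module.finrank ℚ L) / (12 * Module.finrank ℚ F) := by
    rw [← hLg]
    field_simp
  unfold height
  rw [e1, e2, hcond, ← add_div, div_mul_eq_mul_div, ← add_div,
    div_le_div_iff_of_pos_right (by positivity)]
  linarith

end Pool.Agent.Results.MP_6babc4_nt.SlopeBelowHalfAllDegrees
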