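import Pool.Agent.T63.FF.Base
import Pool.Agent.N760.IT.D

/-!
# Frey's inequality for all parameters of height near the members of almost all orbits of Euler's function, in every one-parameter family

Let `φ_k` be the `k`-th iterate of Euler's function, `φ_0(m) = m`. Let `f` be a positive multiplicative
function of at most polynomial growth such that `f p ≤ M p` for the large primes `p`, with different values
at different large primes; for example the identity, Euler's function or the sum of the divisors. Let `G`
have steps bounded below by a positive constant and growth at most `v ^ e`, for example `G v = v`. Let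
`J = A / D` be any rational function over `ℚ` of degree `N` with at least two poles on the projective line,
`ε > 0`, `θ ≥ 0` and `e ε + θ < 1`. There is `K(m)` tending to infinity such that for almost all `m`, for all
`k ≤ K(m)`, with `v = f(φ_k(m))`, for ALL rational numbers `t` of height `H(t)` with `|H(t) - G v| ≤ v ^ θ`
Frey's inequality `h_F(A) + c₀ g ≤ κ log N_A`, `κ = (16 (N + 1) / ε + 3) / 6`, holds for ALL number fields `K`,
ALL extensions `L` of `K`, of whatever degree `g`, and the Weil restrictions `A` to `K` of ALL elliptic
curves over `L` with invariant `J(t)`. The same is true for the integers `t` if only `D` is not constant. The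
values of `f` are in general taken with very large multiplicities, and so this does not follow from the
number of the exceptional `t`.

Proof: the starting library `N760/IT` and the starting theorem `MP_6babc4_nt.EveryOneParameterFamily` (the
number of the exceptional `t`).
-/

set_option autoImplicit false

namespace Pool.Agent.Results.MP_6babc4_nt.TotientOrbits

open Filter Polynomial
open Pool.Agent.T63.FF
open Pool.Agent.Results.MP_6babc4_nt.EveryOneParameterFamily (IsFunction poleCount HoldsAt)
open Pool.Agent.N733.TG (LM Expanding lm_totient lm_sigma expanding_pow)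
open Pool.Agent.N760.IT (orb lm_id orbit_windows')
open Pool.Agent.N826.IT.Orb (AlmostAll)

/-- **Frey's inequality near the orbits of Euler's function.** Let `J = A / D` be a rational function of
degree `N` over `ℚ`, `ε > 0`, and let `c₀` be real. Let `f` be multiplicative and positive, of at most
polynomial growth, with `f p ≤ M p` at the large primes, and injective there; let `G` have steps `≥ a > 0`
and growth at most `v ^ e`, `θ ≥ 0` and `e ε + θ < 1`. If `J` has at least two poles then there is `K(m)`
tending to infinity such that for almost all `m`, for all `k ≤ K(m)`, with `v = f(φ_k(m))` (`orb f k m`), for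
ALL rational numbers `t` of height `H(t)` with `|H(t) - G v| ≤ v ^ θ`, `t` is not a pole and Frey's inequality
with the slope `(16 (N + 1) / ε + 3) / 6` and the constant `c₀` holds for all Weil restrictions of all
elliptic curves over all number fields with invariant `J(t)` (`HoldsAt`); if `D` is not constant then the
same is true for ALL integers `t` with `||t| - G v| ≤ v ^ θ`. The identity, Euler's function and the sum of
the divisors are examples of such functions `f`, and `α v ^ e` with `α > 0`, `e ≥ 1` is an example of `G`. -/
theorem result :
    ∀ (N : ℕ) (A D : ℤ[X]), IsFunction N A D → ∀ ε c₀ : ℝ, 0 < ε →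
      ∀ f : ℕ → ℕ, LM f → ∀ (G : ℕ → ℝ) (e : ℝ), Expanding G e → ∀ θ : ℝ, 0 ≤ θ → e * ε + θ < 1 →
      (2 ≤ poleCount N D → ∃ K : ℕ → ℕ, Tendsto K atTop atTop ∧
        AlmostAll (fun m => ∀ k ≤ K m, ∀ t : ℚ,
          |(ht t : ℝ) - G (orb f k m)| ≤ (orb f k m : ℝ) ^ θ → HoldsAt (slope N ε) c₀ A D t)) ∧
      (1 ≤ D.natDegree → ∃ K : ℕ → ℕ, Tendsto K atTop atTop ∧
        AlmostAll (fun m => ∀ k ≤ K m, ∀ t : ℤ,
          |(t.natAbs : ℝ) - G (orb f k m)| ≤ (orb f k m : ℝ) ^ θ →
            HoldsAt (slope N ε) c₀ A D t)) := by
  intro N A D hJ ε c₀ hε f hf G e hG θ hθ h1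
  refine ⟨fun h2 => ?_, fun h2 => ?_⟩
  · obtain ⟨K, hK, h3⟩ := orbit_windows' {t : ℚ | ¬ HoldsAt (slope N ε) c₀ A D t}
      (fun t : ℚ => (ht t : ℝ)) hf hG (s := ε) (κ := θ) hε.le hθ h1
      (count_rat N A D hJ ε c₀ hε h2)
    refine ⟨K, hK, ?_⟩
    refine Pool.Agent.N826.IT.Orb.almostAll_mono h3 fun m h k hk t ht => ?_
    by_contra h5
    exact h k hk t h5 ht
  · obtain ⟨K, hK, h3⟩ := orbit_windows' {t : ℤ | ¬ HoldsAt (slope N ε) c₀ A D t}
      (fun t : ℤ => (t.natAbs : ℝ)) hf hG (s := ε) (κ := θ) hε.le hθ h1
      (count_int N A D hJ ε c₀ hε h2)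
    refine ⟨K, hK, ?_⟩
    refine Pool.Agent.N826.IT.Orb.almostAll_mono h3 fun m h k hk t ht => ?_
    by_contra h5
    exact h k hk t h5 ht

end Pool.Agent.Results.MP_6babc4_nt.TotientOrbits
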